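import Pool.Agent.P8H9.AR.Fin

/-!
# MP_d2121a_nt, Q1 on average: the mean of the Artin `L`-functions of all polynomials of degree `n`

Let `ρ` be a finite-dimensional complex representation of the symmetric group `S_n`. Every monic
`f ∈ ℤ[x]` of degree `n` without multiple roots gives, by restriction to the Galois group of `f` acting on
the `n` roots, a representation `ρ_f` of the absolute Galois group of `ℚ` and an Artin `L`-function
`L(s, ρ_f)`; here it is taken as the product over the primes modulo which `f` has `n` different roots.
The theorem says that the mean of `L(s, ρ_f)` over all `f = x^n + c_{n-1} x^{n-1} + … + c_0`, `c ∈ ℤ^n`,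
continues from `Re s > 1` to `Re s > 1/2`, without poles other than the one at `s = 1` whose order is the
multiplicity of the trivial representation in `ρ`.
-/

set_option autoImplicit false

open Polynomial Filter Topology Pool.Agent.P8H9.AV Pool.Agent.P8H9.AR

namespace Pool.Agent.Results.MP_d2121a_nt.ArtinInTheMean

/-- **Artin's holomorphy conjecture in the mean over all polynomials of degree `n`.**  Let `n ≥ 1`, let
`ρ` be a representation of `S_n` on a finite-dimensional complex vector space and let `r` be the
dimension of the space of its invariants. There are a function `N` and functions `E_p`, one for every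
prime `p`, with the following properties.

* For `Re s > 1` the mean of `L(s, ρ_f)` over the `f = x^n + c_{n-1} x^{n-1} + … + c_0`, `c ∈ ℤ^n` in a
  box `|c_j| ≤ H_j`, tends to `ζ(s)^r N(s)` as all `H_j` tend to infinity.
* `N` is holomorphic for `Re s > 1/2`, and `N` is real and positive on the real half-line `s > 1/2`, in
  particular at `s = 1`; so the mean continues to a meromorphic function on `Re s > 1/2` whose only pole
  is the one at `s = 1`, of the order `r`.
* For `Re s > 0` and every finite set `S` of primes the mean of the product over `p ∈ S` of the Euler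
  factors of `L(s, ρ_f)` tends to the product of the numbers `E_p(s)`, `p ∈ S`; and for `Re s > 1/2` the
  product of the `(1 - p^{-s})^r E_p(s)` over all primes converges to `N(s)`. -/
theorem result (n : ℕ) (hn : 1 ≤ n) (V : Type*) [AddCommGroup V] [Module ℂ V]
    [FiniteDimensional ℂ V] (ρ : Representation ℂ (Equiv.Perm (Fin n)) V) :
    ∃ (N : ℂ → ℂ) (E : Nat.Primes → ℂ → ℂ),
      (∀ s : ℂ, 1 < s.re →
        Tendsto (fun H : Fin n → ℕ => mean H fun c => LArtin ρ (member (X ^ n) c) s) atTop
          (𝓝 (riemannZeta s ^ Module.finrank ℂ ρ.invariants * N s))) ∧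
      DifferentiableOn ℂ N {s : ℂ | 1 / 2 < s.re} ∧
      (∀ σ : ℝ, 1 / 2 < σ → ∃ r : ℝ, 0 < r ∧ N (σ : ℂ) = r) ∧
      (∀ (S : Finset Nat.Primes) (s : ℂ), 0 < s.re →
        Tendsto (fun H : Fin n → ℕ => mean H fun c => ∏ p ∈ S, artinFactor ρ (member (X ^ n) c) p s)
          atTop (𝓝 (∏ p ∈ S, E p s))) ∧
      ∀ s : ℂ, 1 / 2 < s.re →
        HasProd (fun p : Nat.Primes =>
          (1 - ((p : ℕ) : ℂ) ^ (-s)) ^ Module.finrank ℂ ρ.invariants * E p s) (N s) :=
  ⟨NN ρ, EA ρ, fun _ hs => mean_LArtin ρ hs, NN_diff ρ hn, fun _ hσ => NN_pos ρ hn hσ,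
    fun S _ hs => mean_fin ρ S hs, fun _ hs => prod_E ρ hn hs⟩

end Pool.Agent.Results.MP_d2121a_nt.ArtinInTheMean
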