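import Mathlib
import Pool.Agent.P8H57.HS.Main

/-!
# Artin's holomorphy conjecture for almost all Schur functors of a faithful representation

`G` is a finite group, `ρ` a faithful complex representation of `G` of dimension `n + 1`, and
`scalars ρ` the (central) subgroup of the elements acting as scalars; `N > 0` is such that all
`g ^ N` are scalars (for instance the exponent of the image of `G` in `PGL`), and `σ` is any complex
representation of `G`.

* `Irr G` is the set of the irreducible complex characters of `G`.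
* `ArtinData G s₀` are functions `L χ` (`χ` a character of `G = Gal(L/K)`) and `Lin H ψ` (`ψ` a
  linear character of the subgroup `H`) with the formal properties of the completed Artin
  L-functions near the point `s₀`: they are meromorphic and not identically zero, the functions
  `Lin H ψ` have no pole at `s₀`, and `Lin H ψ` is the product of the `L χ ^ ⟨χ|_H, ψ⟩`.
* `symTrace M k` is the coefficient of `X ^ k` in `1 / det (1 - X M)`, i.e. the trace of the `k`-th
  symmetric power of `M`, and `schurTrace lam M = det (symTrace M (lam i - i + j))` is the trace of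
  the Schur functor `S_lam` at `M` (formula of Jacobi and Trudi).
* `IsMult ψ m`: `m χ` is the multiplicity of `χ` in `ψ`, for all `χ` in `Irr G`; the L-function of
  the representation with character `ψ` is then the product of the `L χ ^ m χ`.

The theorem: if `(N - 1) ([G : Z] - 1) 2 ^ n ≤ 2 ^ n + 2 (lam 0 - lam n)`, which excludes, up to
twists by powers of the determinant, only finitely many `lam`, then the L-function of
`σ ⊗ S_lam(ρ)` has no pole at `s₀`, for every `σ`; its order at `s₀` is asymptotically proportional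
to its degree, with a factor which depends only on `|lam|` modulo the order of `Z`; and the
L-function of `σ ⊗ ρ^{⊗a} ⊗ (dual of ρ)^{⊗b}` has no pole at `s₀` as soon as
`(n + 1) (N - 1) ^ 2 log [G : Z] ≤ a + b`.
-/

set_option autoImplicit false

namespace Pool.Agent.Results.MP_d2121a_nt.HighSchurFunctors

open Pool.Agent.H302R2 Pool.Agent.H541R3.ART Pool.Agent.P8H57.HS Module

/-- **Main theorem.** -/
theorem result {G : Type} [Group G] [Finite G] {n : ℕ}
    (ρ : Representation ℂ G (Fin (n + 1) → ℂ)) (hρ : Function.Injective ρ)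
    (N : ℕ) (hN0 : 0 < N) (hN : ∀ g : G, g ^ N ∈ scalars ρ)
    {e : ℕ} (σ : Representation ℂ G (Fin e → ℂ)) (s₀ : ℂ) (A : ArtinData G s₀) :
    (∀ lam : Fin (n + 1) → ℕ, Antitone lam →
      ((N : ℝ) - 1) * ((scalars ρ).index - 1) * 2 ^ n
        ≤ 2 ^ n + 2 * ((lam 0 : ℝ) - lam (Fin.last n)) →
      ∀ m : (G → ℂ) → ℕ, IsMult (fun g => σ.character g * schurTrace lam (mat (ρ g))) m →
        0 ≤ meromorphicOrderAt (fun s => ∏ᶠ χ ∈ Irr G, A.L χ s ^ m χ) s₀) ∧
    (∃ w : ℕ → ℕ, (∀ k, w (k + Nat.card (scalars ρ)) = w k) ∧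
      ∀ lam : Fin (n + 1) → ℕ, Antitone lam →
      ∀ m : (G → ℂ) → ℕ, IsMult (fun g => σ.character g * schurTrace lam (mat (ρ g))) m →
      ∃ K : ℤ, meromorphicOrderAt (fun s => ∏ᶠ χ ∈ Irr G, A.L χ s ^ m χ) s₀ = (K : WithTop ℤ) ∧
        (2 ^ n + 2 * ((lam 0 : ℝ) - lam (Fin.last n)))
          * |K * ((scalars ρ).index : ℝ)
              - w (∑ i, lam i) * (schurTrace lam (mat (1 : End ℂ (Fin (n + 1) → ℂ)))).re|
        ≤ ((N : ℝ) - 1) * ((scalars ρ).index - 1) * 2 ^ n
          * (w (∑ i, lam i) * (schurTrace lam (mat (1 : End ℂ (Fin (n + 1) → ℂ)))).re)) ∧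
    (∀ a b : ℕ, ((n : ℝ) + 1) * ((N : ℝ) - 1) ^ 2 * Real.log (scalars ρ).index ≤ a + b →
      ∀ m : (G → ℂ) → ℕ, IsMult (fun g => σ.character g
        * (ρ.character g ^ a * (starRingEnd ℂ) (ρ.character g) ^ b)) m →
        0 ≤ meromorphicOrderAt (fun s => ∏ᶠ χ ∈ Irr G, A.L χ s ^ m χ) s₀) :=
  ⟨fun lam hlam hbig m hm => schur_holo ρ hρ N hN0 hN σ A lam hlam hbig m hm,
    schur_main ρ hρ N hN0 hN σ A,
    fun a b hbig m hm => tensor_holo ρ hρ N hN0 hN σ A a b hbig m hm⟩

end Pool.Agent.Results.MP_d2121a_nt.HighSchurFunctors
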