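import Pool.Agent.P8H9.AR.LawA

/-!
# MP_d2121a_nt, Q1: the limit law of the Artin `L`-functions of polynomials of degree `n`

Let `ρ` be a finite-dimensional complex representation of the symmetric group `S_n` on which `S_n` does not
act trivially. Every monic `f ∈ ℤ[x]` of degree `n` without multiple roots gives, by restriction to the
Galois group of `f` acting on the `n` roots, a representation `ρ_f` and an Artin `L`-function `L(s, ρ_f)`;
here it is taken as the product over the primes modulo which `f` has `n` different roots. It converges for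
`Re s > 1`, and by Artin's conjecture `L(s, ρ_f)` is holomorphic outside `s = 1`. The theorem determines the
limit law of these functions, `f` running over all monic polynomials of degree `n` with integral
coefficients, in the space of continuous functions on the half plane `Re s > 1`, and shows that almost every
function drawn from the limit law is of the form `ζ(s)^r G(s)`, `r` the multiplicity of the trivial
representation in `ρ`, with a function `G` which continues holomorphically and without zeros to
`Re s > 1/2`, but that it has no meromorphic continuation to a neighbourhood of any point of the line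
`Re s = 1/2`.
-/

set_option autoImplicit false

open Polynomial Filter Topology MeasureTheory Pool.Agent.P8H9.AV Pool.Agent.P8H9.RD
  Pool.Agent.P8H9.AR

namespace Pool.Agent.Results.MP_d2121a_nt.LimitLawNaturalBoundary

/-- **The limit law of the Artin `L`-functions `L(s, ρ_f)` of the polynomials of degree `n` has the
natural boundary `Re s = 1/2`.**  Let `n ≥ 1` and let `ρ` be a representation of `S_n` on a
finite-dimensional complex vector space with a space of invariants of dimension `r` which is not the whole
space.  Let `ω = (ω_p)_p` be random, the `ω_p ∈ (ℤ/p)^n` independent and uniformly distributed (`mu n`), and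
let `LA ρ ω s` be the Euler product whose factor at `p` is the Euler factor at `p` of `L(s, ρ_f)`,
`f = x^n + c_{n-1} x^{n-1} + … + c_0`, `c` reducing to `ω_p` modulo `p`.

* `mu n` is a probability measure.
* The functions `Λ ω = LA ρ ω` and `L c = L(·, ρ_f)` are continuous on the half plane `Re s > 1`, and for
  every continuous function `Φ` on the space of the continuous functions on this half plane (topology of
  uniform convergence on compact sets) the mean of `Φ (L c)` over the `c ∈ ℤ^n` in a box `|c_j| ≤ H_j`
  tends to the expectation of `Φ (Λ ω)` as all `H_j` tend to infinity.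
* For almost every `ω`, `Λ ω` is `ζ(s)^r G(s)` for `Re s > 1` with a function `G` which is holomorphic
  and without zeros for `Re s > 1/2`.
* For almost every `ω`, `Λ ω` has no meromorphic continuation to the union of the half plane
  `Re s > 1/2` and a disc around a point of the line `Re s = 1/2`. -/
theorem result (n : ℕ) (hn : 1 ≤ n) (V : Type*) [AddCommGroup V] [Module ℂ V]
    [FiniteDimensional ℂ V] (ρ : Representation ℂ (Equiv.Perm (Fin n)) V) (hρ : ρ.invariants ≠ ⊤) :
    IsProbabilityMeasure (mu n) ∧
    (∃ (Λ : Om n → C({s : ℂ // 1 < s.re}, ℂ)) (L : (Fin n → ℤ) → C({s : ℂ // 1 < s.re}, ℂ)),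
      (∀ ω s, Λ ω s = LA ρ ω s) ∧ (∀ c s, L c s = LArtin ρ (member (X ^ n) c) s) ∧
      ∀ Φ : C({s : ℂ // 1 < s.re}, ℂ) → ℂ, Continuous Φ →
        Integrable (fun ω => Φ (Λ ω)) (mu n) ∧
        Tendsto (fun H : Fin n → ℕ => mean H fun c => Φ (L c)) atTop
          (𝓝 (∫ ω, Φ (Λ ω) ∂(mu n)))) ∧
    (∀ᵐ ω ∂(mu n), ∃ G : ℂ → ℂ, DifferentiableOn ℂ G {s : ℂ | 1 / 2 < s.re} ∧
      (∀ s : ℂ, 1 / 2 < s.re → G s ≠ 0) ∧
      ∀ s : ℂ, 1 < s.re → riemannZeta s ^ Module.finrank ℂ ρ.invariants * G s = LA ρ ω s) ∧
    ∀ᵐ ω ∂(mu n), ∀ (w : ℂ) (r : ℝ), w.re = 1 / 2 → 0 < r →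
      ¬ ∃ F : ℂ → ℂ, MeromorphicOn F ({s : ℂ | 1 / 2 < s.re} ∪ Metric.ball w r) ∧
        ∀ s : ℂ, 1 < s.re → F s = LA ρ ω s :=
  ⟨inferInstance, lawA ρ, continuesA ρ hn hρ, boundaryA ρ hn hρ⟩

end Pool.Agent.Results.MP_d2121a_nt.LimitLawNaturalBoundary
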