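import Mathlib
import Pool.Agent.P8H3.QM.Conc3
import Pool.Agent.P8H3.QM.Scope

/-!
# Artin's holomorphy conjecture for groups which are not M-groups

There are arbitrarily large finite groups `G` which are not M-groups (some irreducible character is
not induced from a linear character of a subgroup) but for which every irreducible character has a
positive multiple which is induced from a linear character of a subgroup. For all characters of
these groups the order of the Artin L-function is nonnegative at every point.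
-/

set_option autoImplicit false

namespace Pool.Agent.Results.MP_d2121a_nt.QuasiMonomial

open Pool.Agent.H302R2 Pool.Agent.H541R3.ART Pool.Agent.H302R5 Pool.Agent.H302R6
  Pool.Agent.W446.AS Pool.Agent.P8H3.QM

/-- **Main theorem.** -/
theorem result (N : ℕ) : ∃ (G : Type) (_ : Group G) (_ : Finite G), N ≤ Nat.card G ∧
    (∃ χ ∈ Irr G, ¬ IsMonomialChar χ) ∧
    (∀ χ ∈ Irr G, ∃ d : ℕ, 0 < d ∧ IsMonomialChar (fun g => (d : ℂ) * χ g)) ∧
    ∀ (s₀ : ℂ) (A : ArtinData G s₀), ∀ χ ∈ Irr G, 0 ≤ meromorphicOrderAt (A.L χ) s₀ := by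
  obtain ⟨G, i1, i2, h1, h2, h3⟩ := exists_groups N
  refine ⟨G, i1, i2, h1, h2, fun χ hχ => qmono_of_fine h3 hχ, fun s₀ A χ hχ => ?_⟩
  classical
  have : Fintype G := Fintype.ofFinite G
  obtain ⟨k, hk⟩ := h3 _ A.isHeilbronn (theta_virt _) χ hχ
  have h4 := A.order_eq hχ (k := (k : ℤ)) (by rw [sum_eq_pr, hk]; push_cast; rfl)
  rw [h4]
  exact_mod_cast Int.natCast_nonneg k

end Pool.Agent.Results.MP_d2121a_nt.QuasiMonomial
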